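import Mathlib
import Pool.Agent.Helper23.K6.Pos
import Pool.Agent.Helper23.K6.Final

/-!
# The Mordell-Weil rank of the surfaces `K_{6n}` over finite fields: complete answer

For an admissible triple `(q, b, c)` the Mordell-Weil group of `K_{6n}` over `F_q(t)` has positive
rank if and only if `5 ∣ n`, `q ≢ 1 mod 5` and `b / 10` is a cube in `F_q`; in all other cases it
has exactly three elements.
-/

namespace Pool.Agent.Results.MP_3da457_ag.RankClassification

open Pool.Agent.Helper44 Pool.Agent.Helper23.K6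

/-- The curve `E_b : y ^ 2 = x ^ 3 - b`. -/
def curveE {F : Type*} [Field F] (b : F) : WeierstrassCurve F := ⟨0, 0, 0, 0, -b⟩

/-- `(q, b, c)` is an admissible triple, `q` being the number of elements of `F`:
the characteristic is `> 3`, `b` is nonzero and not a cube, `E_b` is ordinary (its trace of
Frobenius `q + 1 - #E_b(F)` is not divisible by the characteristic), and `c` is a nonzero
cube which is not a square. -/
structure Admissible (F : Type*) [Field F] [Fintype F] (b c : F) : Prop where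
  three_lt_char : 3 < ringChar F
  b_ne_zero : b ≠ 0
  ordinary : ¬ ((ringChar F : ℤ) ∣
    (Fintype.card F : ℤ) + 1 - (Nat.card (curveE b).toAffine.Point : ℤ))
  b_not_cube : ¬ ∃ z : F, z ^ 3 = b
  c_ne_zero : c ≠ 0
  c_cube : ∃ z : F, z ^ 3 = c
  c_not_square : ¬ IsSquare c

/-- The Weierstrass form `y ^ 2 = x ^ 3 + ((t ^ (6 n) - c) / (2 b ^ 2)) ^ 2` of `K_{6n}`
over `F(t)`. -/
noncomputable def weierstrassK {F : Type*} [Field F] (b c : F) (n : ℕ) :
    WeierstrassCurve (RatFunc F) :=
  ⟨0, 0, 0, 0, ((RatFunc.X ^ (6 * n) - RatFunc.C c) / (2 * RatFunc.C b ^ 2)) ^ 2⟩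

/-- The affine `F(t)`-rational points `(x₀, x₁)` of the generic fibre of
`K_{6n} : (x₁ ^ 3 - b) t ^ (6 n) = c (x₀ ^ 3 - b)`. -/
def affinePointsK {F : Type*} [Field F] (b c : F) (n : ℕ) : Set (RatFunc F × RatFunc F) :=
  {P | (P.2 ^ 3 - RatFunc.C b) * RatFunc.X ^ (6 * n) = RatFunc.C c * (P.1 ^ 3 - RatFunc.C b)}

/-- Positive case. -/
lemma positive {F : Type} [Field F] [Fintype F] [DecidableEq (RatFunc F)] {b c : F}
    (h : Admissible F b c) {n : ℕ} (hn : 0 < n) (h5n : 5 ∣ n)
    (hq : Fintype.card F % 5 ≠ 1) (hb : ∃ k : F, b = 10 * k ^ 3) :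
    (∃ P : (weierstrassK b c n).toAffine.Point, ¬ IsOfFinAddOrder P) ∧
      (affinePointsK b c n).Infinite :=
  Pos.pos_result (F := F) (b := b) (c := c)
    ⟨h.three_lt_char, h.b_ne_zero, h.ordinary, h.b_not_cube, h.c_ne_zero, h.c_cube,
      h.c_not_square⟩ hq hb hn h5n

/-- Negative case. -/
lemma negative {F : Type} [Field F] [Fintype F] {b c : F}
    (h : Admissible F b c) {n : ℕ} (hn : 0 < n)
    (hneg : ¬ (5 ∣ n ∧ Fintype.card F % 5 ≠ 1 ∧ ∃ k : F, b = 10 * k ^ 3)) :
    Nat.card (weierstrassK b c n).toAffine.Point = 3 ∧ affinePointsK b c n = ∅ := by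
  classical
  have hprime : (ringChar F).Prime := CharP.char_is_prime F (ringChar F)
  haveI : Fact (ringChar F).Prime := ⟨hprime⟩
  haveI : CharP F (ringChar F) := ringChar.charP F
  have hp3 : ringChar F % 3 = 1 :=
    char_mod_three h.three_lt_char h.b_ne_zero h.b_not_cube h.ordinary
  have hθ := Pos.exists_sqrt_neg_three h.b_not_cube
  have hchar := h.three_lt_char
  have h2 : (2 : F) ≠ 0 := by
    intro h0
    have h2' : ((2 : ℕ) : F) = 0 := by exact_mod_cast h0
    have := Nat.le_of_dvd (by norm_num) ((ringChar.spec F 2).1 h2')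
    omega
  have h3 : (3 : F) ≠ 0 := by
    intro h0
    have h3' : ((3 : ℕ) : F) = 0 := by exact_mod_cast h0
    have := Nat.le_of_dvd (by norm_num) ((ringChar.spec F 3).1 h3')
    omega
  have hA := AA_ne_zero b c hn h2 h.b_ne_zero
  have hall : ∀ x y : RatFunc F, y ^ 2 = x ^ 3 + AA b c n ^ 2 → x = 0 := by
    intro x y hxy
    by_contra hx
    exact hneg (neg_all h.three_lt_char hp3 hθ n b c h.b_ne_zero h.b_not_cube h.c_cube
      h.c_ne_zero h.c_not_square hn x y hx hxy)
  exact ⟨card_three (AA b c n) (two_ne_zero_ratFunc h2) (three_ne_zero_ratFunc h3) hA hall,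
    affine_empty b c n h2 h3 h.b_ne_zero hn h.c_cube hθ hall⟩

/-- A group with three elements has no element of infinite order. -/
lemma isOfFinAddOrder_of_card {G : Type*} [AddGroup G] (h : Nat.card G = 3) (P : G) :
    IsOfFinAddOrder P := by
  have hf : Finite G := Nat.finite_of_card_ne_zero (by rw [h]; norm_num)
  exact isOfFinAddOrder_of_finite P

/-- **Main theorem.** Let `(q, b, c)` be an admissible triple, `q` the number of elements of `F`.

* Some `K_{6n}`, `n ≥ 1`, has Mordell-Weil group of positive rank over `F_q(t)` if and only if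
  `q ≢ 1 mod 5` and `b / 10` is a cube in `F_q`.
* More precisely, for every `n ≥ 1`: if `5 ∣ n`, `q ≢ 1 mod 5` and `b / 10` is a cube, then the
  Weierstrass form of `K_{6n}` has a rational point of infinite order and the plane cubic has
  infinitely many affine `F_q(t)`-points; otherwise the Mordell-Weil group has exactly three
  elements and the plane cubic has no affine `F_q(t)`-point. -/
theorem result {F : Type} [Field F] [Fintype F] [DecidableEq (RatFunc F)] {b c : F}
    (h : Admissible F b c) :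
    ((∃ n : ℕ, 0 < n ∧ ∃ P : (weierstrassK b c n).toAffine.Point, ¬ IsOfFinAddOrder P) ↔
      (Fintype.card F % 5 ≠ 1 ∧ ∃ k : F, b = 10 * k ^ 3)) ∧
    ∀ n : ℕ, 0 < n →
      ((5 ∣ n ∧ Fintype.card F % 5 ≠ 1 ∧ ∃ k : F, b = 10 * k ^ 3) →
        (∃ P : (weierstrassK b c n).toAffine.Point, ¬ IsOfFinAddOrder P) ∧
          (affinePointsK b c n).Infinite) ∧
      (¬ (5 ∣ n ∧ Fintype.card F % 5 ≠ 1 ∧ ∃ k : F, b = 10 * k ^ 3) →
        Nat.card (weierstrassK b c n).toAffine.Point = 3 ∧ affinePointsK b c n = ∅) := by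
  refine ⟨⟨?_, ?_⟩, ?_⟩
  · rintro ⟨n, hn, P, hP⟩
    by_contra hcon
    have h1 := negative h hn (fun h' => hcon h'.2)
    exact hP (isOfFinAddOrder_of_card h1.1 P)
  · rintro ⟨hq, hb⟩
    exact ⟨5, by norm_num, (positive h (by norm_num) (dvd_refl 5) hq hb).1⟩
  · intro n hn
    exact ⟨fun h' => positive h hn h'.1 h'.2.1 h'.2.2, fun h' => negative h hn h'⟩

end Pool.Agent.Results.MP_3da457_ag.RankClassification
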